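import Pool.Agent.Helper88_SA.StmtP

/-! SA part C: module LIM. -/

namespace SA.H50

open Filter Topology SA

theorem dmt_big (c : ℤ) (h : 79 ≤ c) : dmt c = 0 := by
  unfold dmt
  rw [if_neg]
  omega

theorem lim (a : AlgA) (eb : EbndStmt) (pr : ProdStmt) (rf : RefStmt) (dr : DriftStmt) :
    LimStmt := by
  intro T x0 z th cx hp
  have hh : ∀ k, HH T x0 z th k := fun k i _ => hp i
  have hx0 : (1 : ℝ) < x0 := by have := cx.nr.x0_lo; linarith
  have hv : ∀ n, Valid T n := fun n => by
    by_cases h : n < 1525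
    · exact cx.sim.valid n h
    · obtain ⟨k, rfl⟩ := Nat.exists_eq_add_of_le (Nat.le_of_not_lt h)
      exact (hp k).val
  have hC : ∀ m, 171 ≤ m → 0 < Cn T x0 m ∧ Cn T x0 m ≤ Cn T x0 171 * (x0⁻¹) ^ (m - 171) := by
    intro m hm
    obtain ⟨p1, p2, _, _⟩ := pr T x0 z th cx m (hh m)
    refine ⟨p1 m hm (by omega), ?_⟩
    have h1 := p2 171 m (le_refl _) hm (by omega)
    have hpos : 0 < x0 ^ (m - 171) := by positivity
    rw [inv_pow, ← div_eq_mul_inv, le_div_iff₀ hpos]
    exact h1
  have hCt : Tendsto (fun m => Cn T x0 m) atTop (𝓝 0) := by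
    have h1 : Tendsto (fun m : ℕ => Cn T x0 171 * (x0⁻¹) ^ (m - 171)) atTop (𝓝 0) := by
      have h2 : Tendsto (fun m : ℕ => (x0⁻¹) ^ (m - 171)) atTop (𝓝 0) :=
        (tendsto_pow_atTop_nhds_zero_of_lt_one (by positivity) (inv_lt_one_of_one_lt₀ hx0)).comp
          (tendsto_sub_atTop_nat 171)
      simpa using h2.const_mul (Cn T x0 171)
    refine tendsto_of_tendsto_of_tendsto_of_le_of_le' tendsto_const_nhds h1 ?_ ?_
    · filter_upwards [eventually_ge_atTop 171] with m hm using (hC m hm).1.le
    · filter_upwards [eventually_ge_atTop 171] with m hm using (hC m hm).2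
  have hR : Tendsto (fun n => (gr T n).R) atTop (𝓝 0) := by
    have h1 : Tendsto (fun m : ℕ => 38 * Ebar x0 * Cn T x0 m) atTop (𝓝 0) := by
      simpa using hCt.const_mul (38 * Ebar x0)
    refine squeeze_zero_norm' ?_ h1
    filter_upwards [eventually_ge_atTop 325] with m hm
    rw [Real.norm_eq_abs]
    exact (eb T x0 z th cx m (hh m)).2 m hm (by omega)
  have hE : Tendsto (fun n => (gr T n).E) atTop (𝓝 0) := by
    have h1 : Tendsto (fun m : ℕ => 0.9643 * Ebar x0 * Cn T x0 m) atTop (𝓝 0) := by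
      simpa using hCt.const_mul (0.9643 * Ebar x0)
    refine tendsto_of_tendsto_of_tendsto_of_le_of_le' tendsto_const_nhds h1 ?_ ?_
    · filter_upwards [eventually_ge_atTop 324] with m hm
      exact ((eb T x0 z th cx m (hh m)).1 m hm (by omega)).2.1
    · filter_upwards [eventually_ge_atTop 324] with m hm
      exact ((eb T x0 z th cx m (hh m)).1 m hm (by omega)).2.2
  refine ⟨hR, ?_⟩
  -- the cycles
  have hmono : ∀ i j, i ≤ j → cyc T x0 th i ≤ cyc T x0 th j := fun i j hij =>
    (dr T x0 z th cx j (hh j) i j hij (le_refl _)).1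
  have hcyc : ∀ j : ℕ, ∃ k, (j : ℤ) ≤ cyc T x0 th k := by
    intro j
    induction j with
    | zero => exact ⟨0, by simpa using (rf T x0 z th cx 0 (hh 0)).1⟩
    | succ j ih =>
      obtain ⟨k, hk⟩ := ih
      by_contra hne
      push Not at hne
      have h1 := hmono k (max k (ref T x0 th j + 49)) (le_max_left _ _)
      have h2 := hne (max k (ref T x0 th j + 49))
      push_cast at h2
      have h3 : cyc T x0 th (max k (ref T x0 th j + 49)) = j := by omega
      have h4 := ((rf T x0 z th cx _ (hh (max k (ref T x0 th j + 49)))).2.2 j h3.ge).2.2.2.2.2.2.2 h3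
      have h5 := le_max_right k (ref T x0 th j + 49)
      omega
  have hinc : ∀ j : ℕ, j ≤ ref T x0 th j := by
    intro j
    induction j with
    | zero => exact Nat.zero_le _
    | succ j ih =>
      obtain ⟨k, hk⟩ := hcyc (j + 1)
      have h1 := ((rf T x0 z th cx k (hh k)).2.2 j (by push_cast at hk; omega)).2.2.2.2.2.2.1
        (by push_cast at hk; omega)
      omega
  intro n
  have ht : Tendsto (fun j : ℕ => 1525 + ref T x0 th j) atTop atTop :=
    tendsto_atTop_mono (fun j => (hinc j).trans (Nat.le_add_left _ _)) tendsto_id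
  have hlim : Tendsto (fun j : ℕ => 1 + ((gr T (1525 + ref T x0 th j)).E
      - (gr T (1525 + ref T x0 th j)).R) / 56) atTop (𝓝 1) := by
    have h1 := ((hE.sub hR).div_const 56).const_add 1
    simp only [sub_zero, zero_div, add_zero] at h1
    exact h1.comp ht
  refine ge_of_tendsto hlim ?_
  filter_upwards [eventually_ge_atTop n] with j hj
  set m := 1525 + ref T x0 th j with hm
  have hjm : n < m := by have := hinc j; omega
  have hkap : kap T m = 0 := by
    obtain ⟨k, hk⟩ := hcyc j
    have h1 := ((rf T x0 z th cx k (hh k)).2.2 j hk).2.2.2.1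
    have h2 := (hp (ref T x0 th j)).kle
    rw [dmt_big _ h1] at h2
    exact Nat.le_zero.mp h2
  have hD : Dn T m = 0 := by
    obtain ⟨_, p2, p3, _, _⟩ := a.pds T m (fun i _ => hv i)
    rw [← p3 (by omega)]
    refine Finset.sum_eq_zero fun d hd => ?_
    rw [Finset.mem_Icc] at hd
    rw [p2 d (by omega) hd.2, mul_zero]
  have hB := (a.bar T m (hv m)).2.2
  have hle := (a.qzero T m (fun i _ => hv i)).2.2.2.1 hkap n hjm
  unfold Bn at hle hB
  rw [hD] at hB
  refine hle.trans (le_of_eq ?_)
  unfold cst at hB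
  unfold St.R
  linarith

end SA.H50
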