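import Pool.Agent.Helper88_SA.StmtP

/-! SA part C: module LYAP. -/

namespace SA.H50

open Filter Topology SA

/-- tails of the weights -/
def wn (q : ℕ) : ℕ := ∑ i ∈ Finset.Icc q 25, chiL.getD i 0

theorem chi_big (q : ℕ) (h : 25 < q) : chiL.getD q 0 = 0 := by
  apply List.getD_eq_default
  show 26 ≤ q
  omega

theorem wn_succ (q : ℕ) : wn q = chiL.getD q 0 + wn (q + 1) := by
  unfold wn
  by_cases h : q ≤ 25
  · rw [Finset.Icc_eq_cons_Ioc h, Finset.sum_cons]
    congr 1
    refine Finset.sum_congr ?_ fun _ _ => rfl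
    ext x
    simp only [Finset.mem_Ioc, Finset.mem_Icc]
    omega
  · push Not at h
    rw [chi_big q h, Finset.Icc_eq_empty (by omega), Finset.Icc_eq_empty (by omega)]
    rfl

theorem wn_one : wn 1 = 7649 := by decide
theorem wn_two : wn 2 = 861 := by decide
theorem wn_sum : ∑ i ∈ Finset.range 24, wn (i + 2) = 2567 := by decide
theorem wn_big (q : ℕ) (h : 25 < q) : wn q = 0 := by
  unfold wn
  rw [Finset.Icc_eq_empty (by omega)]
  rfl

/-- Abel summation -/
theorem abel (b : ℕ → ℝ) : ∀ (m s : ℕ), (∀ i, i < m → 0 ≤ b i) →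
    ∑ i ∈ Finset.range m, (wn (m + s - i) : ℝ) * (b (i + 1) - b i) ≤ (wn (s + 1) : ℝ) * b m
      ∨ m = 0 := by
  intro m
  induction m with
  | zero => intro s _; right; rfl
  | succ m ih =>
    intro s hb
    left
    rw [Finset.sum_range_succ]
    have e1 : ∑ i ∈ Finset.range m, (wn (m + 1 + s - i) : ℝ) * (b (i + 1) - b i)
        = ∑ i ∈ Finset.range m, (wn (m + (s + 1) - i) : ℝ) * (b (i + 1) - b i) := by
      refine Finset.sum_congr rfl fun i _ => ?_
      rw [show m + 1 + s - i = m + (s + 1) - i by omega]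
    rw [e1, show m + 1 + s - m = s + 1 by omega]
    have h0 := hb m (by omega)
    have h1 : (wn (s + 2) : ℝ) ≤ wn (s + 1) := by
      have : wn (s + 2) ≤ wn (s + 1) := by
        rw [wn_succ (s + 1)]
        exact Nat.le_add_left _ _
      exact_mod_cast this
    rcases ih (s + 1) (fun i hi => hb i (by omega)) with h | h
    · rw [show s + 1 + 1 = s + 2 by omega] at h
      nlinarith [mul_le_mul_of_nonneg_right h1 h0]
    · subst h
      simp only [Finset.range_zero, Finset.sum_empty, zero_add]
      nlinarith [mul_nonneg (Nat.cast_nonneg (α := ℝ) (wn (s + 1))) h0]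

theorem wsum (m : ℕ) : ∑ i ∈ Finset.range m, wn (m + 1 - i) ≤ 2567 := by
  have e : ∑ i ∈ Finset.range m, wn (m + 1 - i) = ∑ i ∈ Finset.range m, wn (i + 2) := by
    rw [← Finset.sum_range_reflect]
    refine Finset.sum_congr rfl fun i hi => ?_
    rw [Finset.mem_range] at hi
    congr 1
    omega
  rw [e, ← wn_sum]
  by_cases h : m ≤ 24
  · exact Finset.sum_le_sum_of_subset (Finset.range_subset_range.mpr h)
  · push Not at h
    refine le_of_eq (Finset.sum_subset (Finset.range_subset_range.mpr h.le) ?_).symm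
    intro i _ hi
    rw [Finset.mem_range] at hi
    exact wn_big _ (by omega)

theorem reidx (j : ℕ) (K : ℕ → ℝ) :
    ∑ q ∈ Finset.Icc (1 : ℕ) 25, (if q ≤ j then (chiL.getD q 0 : ℝ) / 10 ^ 4 * K (j - q) else 0)
      = (∑ i ∈ Finset.range j, (chiL.getD (j - i) 0 : ℝ) * K i) / 10 ^ 4 := by
  rw [← Finset.sum_filter, Finset.sum_div]
  have e : ∑ i ∈ Finset.range j, (chiL.getD (j - i) 0 : ℝ) * K i / 10 ^ 4 =
      ∑ i ∈ (Finset.range j).filter (fun i => j - i ≤ 25), (chiL.getD (j - i) 0 : ℝ) * K i / 10 ^ 4 := by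
    rw [Finset.sum_filter_of_ne]
    intro i hi hne
    by_contra hc
    push Not at hc
    rw [chi_big _ hc] at hne
    simp at hne
  rw [e]
  refine Finset.sum_nbij' (fun q => j - q) (fun i => j - i) ?_ ?_ ?_ ?_ ?_
  · intro q hq
    simp only [Finset.mem_filter, Finset.mem_Icc, Finset.mem_range] at hq ⊢
    omega
  · intro q hq
    simp only [Finset.mem_filter, Finset.mem_Icc, Finset.mem_range] at hq ⊢
    omega
  · intro q hq
    simp only [Finset.mem_filter, Finset.mem_Icc] at hq
    show j - (j - q) = q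
    omega
  · intro q hq
    simp only [Finset.mem_filter, Finset.mem_range] at hq
    show j - (j - q) = q
    omega
  · intro q hq
    simp only [Finset.mem_filter, Finset.mem_Icc] at hq
    rw [show j - (j - q) = q by omega]
    ring

theorem lyap : LyapStmt := by
  intro J a K hK h1 h0 h2 h3
  by_contra hJ
  push Not at hJ
  set V : ℕ → ℝ := fun j => 19949 * a j + ∑ i ∈ Finset.range j, (wn (j - i) : ℝ) * K i with hV
  have hJ0 : J ≠ 0 := by
    rintro rfl
    linarith
  -- one step
  have hstep : ∀ j, j < J → V (j + 1) = 19949 * a (j + 1) + 7649 * K j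
      + (V j - 19949 * a j) - ∑ i ∈ Finset.range j, (chiL.getD (j - i) 0 : ℝ) * K i := by
    intro j hj
    simp only [hV]
    rw [Finset.sum_range_succ, show j + 1 - j = 1 by omega, wn_one]
    have e : ∑ i ∈ Finset.range j, (wn (j + 1 - i) : ℝ) * K i =
        ∑ i ∈ Finset.range j, (wn (j - i) : ℝ) * K i
          - ∑ i ∈ Finset.range j, (chiL.getD (j - i) 0 : ℝ) * K i := by
      rw [← Finset.sum_sub_distrib]
      refine Finset.sum_congr rfl fun i hi => ?_
      rw [Finset.mem_range] at hi
      rw [wn_succ (j - i), show j + 1 - i = j - i + 1 by omega]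
      push_cast
      ring
    rw [e]
    push_cast
    ring
  have hdec : ∀ j, 1 ≤ j → j < J → 1.056 ≤ a j → V (j + 1) ≤ V j := by
    intro j h1j hj haj
    have e1 := hstep j hj
    have e2 := h3 j h1j hj haj
    rw [reidx] at e2
    have e3 := h1 j hj
    rw [e1]
    linarith
  -- last index below 1.056
  obtain ⟨m, hm, hma, hmb⟩ : ∃ m, m < J ∧ a m < 1.056 ∧ ∀ j, m < j → j < J → 1.056 ≤ a j := by
    classical
    set S := (Finset.range J).filter (fun j => a j < 1.056) with hS
    have hne : S.Nonempty := ⟨0, by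
      rw [hS, Finset.mem_filter, Finset.mem_range]
      exact ⟨Nat.pos_of_ne_zero hJ0, h0⟩⟩
    have hmem := Finset.mem_filter.mp (S.max'_mem hne)
    rw [Finset.mem_range] at hmem
    refine ⟨S.max' hne, hmem.1, hmem.2, fun j hj1 hj2 => ?_⟩
    by_contra hc
    push Not at hc
    have : j ∈ S := by rw [hS, Finset.mem_filter, Finset.mem_range]; exact ⟨hj2, hc⟩
    have := S.le_max' j this
    omega
  have hV1 : ∀ t, m + 1 + t ≤ J → V (m + 1 + t) ≤ V (m + 1) := by
    intro t
    induction t with
    | zero => intro _; exact le_refl _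
    | succ t ih =>
      intro ht
      exact (hdec (m + 1 + t) (by omega) (by omega) (hmb _ (by omega) (by omega))).trans
        (ih (by omega))
  have hVJ : V J ≤ V (m + 1) := by
    have := hV1 (J - (m + 1)) (by omega)
    rwa [show m + 1 + (J - (m + 1)) = J by omega] at this
  have haJ : 19949 * a J ≤ V J := by
    have : 0 ≤ ∑ i ∈ Finset.range J, (wn (J - i) : ℝ) * K i :=
      Finset.sum_nonneg fun i hi => mul_nonneg (Nat.cast_nonneg _) (hK i (Finset.mem_range.mp hi))
    simp only [hV]
    linarith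
  -- bound of V (m + 1)
  have hVm : V (m + 1) ≤ 19949 * (a m + 5.14 / 10 ^ 4) + 861 * (1.0573 - a m)
      + 5.14 / 10 ^ 4 * 2567 := by
    have e1 : V (m + 1) = 19949 * a (m + 1) + (∑ i ∈ Finset.range m, (wn (m + 1 - i) : ℝ) * K i
        + 7649 * K m) := by
      simp only [hV]
      rw [Finset.sum_range_succ, show m + 1 - m = 1 by omega, wn_one]
      push_cast
      ring
    have e2 : ∑ i ∈ Finset.range m, (wn (m + 1 - i) : ℝ) * K i ≤
        ∑ i ∈ Finset.range m, (wn (m + 1 - i) : ℝ) * ((1.0573 - a (i + 1)) - (1.0573 - a i))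
          + ∑ i ∈ Finset.range m, (wn (m + 1 - i) : ℝ) * (5.14 / 10 ^ 4) := by
      rw [← Finset.sum_add_distrib]
      refine Finset.sum_le_sum fun i hi => ?_
      rw [Finset.mem_range] at hi
      have e3 := h1 i (by omega)
      rw [← mul_add]
      refine mul_le_mul_of_nonneg_left ?_ (Nat.cast_nonneg _)
      linarith
    have e4 : ∑ i ∈ Finset.range m, (wn (m + 1 - i) : ℝ) * (5.14 / 10 ^ 4) ≤
        2567 * (5.14 / 10 ^ 4) := by
      rw [← Finset.sum_mul]
      refine mul_le_mul_of_nonneg_right ?_ (by norm_num)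
      exact_mod_cast wsum m
    have e5 : ∑ i ∈ Finset.range m, (wn (m + 1 - i) : ℝ) * ((1.0573 - a (i + 1)) - (1.0573 - a i))
        ≤ 861 * (1.0573 - a m) := by
      have hbm : 0 ≤ 1.0573 - a m := by have := h2 m hm; linarith
      rcases abel (fun i => 1.0573 - a i) m 1 (fun i hi => by
        have := h2 i (by omega); show 0 ≤ 1.0573 - a i; linarith) with h | h
      · rw [wn_two] at h
        exact_mod_cast h
      · subst h
        simp only [Finset.range_zero, Finset.sum_empty]
        positivity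
    have e6 := h1 m hm
    have e7 := hK m hm
    rw [e1]
    linarith
  have hJ' : (1.0567 : ℝ) < a J := hJ
  linarith

end SA.H50
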