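import Pool.Agent.Helper88_SA.StmtP

/-! SA part C: modules CYCB and PHREP. -/

namespace SA.H50

open Filter Topology SA

theorem cycb : CycbStmt := by
  intro T x0 z th cx k
  have hp := abs_le.mp cx.nr.per_enc
  have hpl : (48.855 : ℝ) < per th := by linarith [hp.1]
  have hpu : per th < (48.856 : ℝ) := by linarith [hp.2]
  have hp0 : 0 < per th := by linarith
  have h1 : pp T x0 th k < 11 := by
    unfold pp cyc
    have h := Int.ceil_lt_add_one ((11 - ph T x0 th k) / per th)
    have h' : ((⌈(11 - ph T x0 th k) / per th⌉ - 1 : ℤ) : ℝ) < (11 - ph T x0 th k) / per th := by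
      push_cast
      linarith
    rw [lt_div_iff₀ hp0] at h'
    linarith
  have h2 : 11 - per th ≤ pp T x0 th k := by
    unfold pp cyc
    have h := Int.le_ceil ((11 - ph T x0 th k) / per th)
    rw [div_le_iff₀ hp0] at h
    push_cast
    linarith
  have h3 : (cell T x0 th k : ℝ) ≤ 8 * pp T x0 th k := Int.floor_le _
  have h4 : 8 * pp T x0 th k < (cell T x0 th k : ℝ) + 1 := Int.lt_floor_add_one _
  have h5 : -304 ≤ cell T x0 th k := by
    unfold cell
    rw [Int.le_floor]
    push_cast
    linarith
  have h6 : cell T x0 th k < 88 := by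
    unfold cell
    rw [Int.floor_lt]
    push_cast
    linarith
  have hph := cx.sim.phase
  have h7 : cyc T x0 th 0 = 0 := by
    unfold cyc
    have e : ph T x0 th 0 = (xin T x0 th 1525).arg / omg th := rfl
    rw [e]
    have : ⌈(11 - (xin T x0 th 1525).arg / omg th) / per th⌉ = 1 := by
      rw [Int.ceil_eq_iff]
      constructor
      · push_cast
        have : 0 < (11 - (xin T x0 th 1525).arg / omg th) / per th := by
          apply div_pos _ hp0
          linarith [hph.2]
        linarith
      · push_cast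
        rw [div_le_iff₀ hp0]
        linarith [hph.1]
    rw [this]
    norm_num
  have h8 : 10 ≤ pp T x0 th 0 := by
    unfold pp
    rw [h7]
    have e : ph T x0 th 0 = (xin T x0 th 1525).arg / omg th := rfl
    rw [e]
    push_cast
    linarith [hph.1]
  refine ⟨h2, h1, ?_, ?_, h5, h6, h7, h8⟩
  · rw [div_le_iff₀ (by norm_num)]
    linarith
  · rw [lt_div_iff₀ (by norm_num)]
    linarith

theorem phrep : PhrepStmt := by
  intro T x0 z th cx k
  have hx0 : (0 : ℝ) < x0 := by have := cx.nr.x0_lo; linarith
  have hth : (0 : ℝ) < ‖th‖ := cx.nr.th_pos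
  have hth0 : th ≠ 0 := norm_pos_iff.mp hth
  have ho := abs_le.mp cx.nr.omg_enc
  have ho0 : 0 < omg th := by linarith [ho.1]
  have hone : omg th ≠ 0 := ho0.ne'
  have hmain : ∀ k, (∀ i, i ≤ k → xin T x0 th (1525 + i) ≠ 0) →
      xin T x0 th (1525 + k) =
        (Am T x0 th k : ℂ) * Complex.exp ((omg th * ph T x0 th k : ℝ) * Complex.I) := by
    intro k
    induction k with
    | zero =>
      intro _
      have e : ph T x0 th 0 = (xin T x0 th 1525).arg / omg th := rfl
      rw [e, mul_div_cancel₀ _ hone]
      exact (Complex.norm_mul_exp_arg_mul_I _).symm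
    | succ k ih =>
      intro h
      have ihk := ih (fun i hi => h i (by omega))
      have n1 : xin T x0 th (1525 + k) ≠ 0 := h k (by omega)
      have n2 : xin T x0 th (1525 + k + 1) ≠ 0 := h (k + 1) (le_refl _)
      have a1 : ‖xin T x0 th (1525 + k)‖ ≠ 0 := norm_ne_zero_iff.mpr n1
      have a2 : ‖xin T x0 th (1525 + k + 1)‖ ≠ 0 := norm_ne_zero_iff.mpr n2
      set w : ℂ := xin T x0 th (1525 + k + 1) * th / ((x0 : ℂ) * xin T x0 th (1525 + k)) with hw
      have e : ph T x0 th (k + 1) = ph T x0 th k - 1 + w.arg / omg th := rfl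
      have e2 : omg th * ph T x0 th (k + 1) = omg th * ph T x0 th k + (-omg th + w.arg) := by
        rw [e]
        field_simp
        ring
      have hw1 : (‖w‖ : ℂ) * Complex.exp (w.arg * Complex.I) = w :=
        Complex.norm_mul_exp_arg_mul_I w
      have ht1 : (‖th‖ : ℂ) * Complex.exp (omg th * Complex.I) = th :=
        Complex.norm_mul_exp_arg_mul_I th
      have hwn : ‖w‖ = ‖xin T x0 th (1525 + k + 1)‖ * ‖th‖ / (x0 * ‖xin T x0 th (1525 + k)‖) := by
        rw [hw, norm_div, norm_mul, norm_mul, Complex.norm_real, Real.norm_of_nonneg hx0.le]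
      have hwn0 : ‖w‖ ≠ 0 := by
        rw [hwn]
        have := hth.ne'
        have := hx0.ne'
        positivity
      have c1 : Complex.exp (w.arg * Complex.I) = w / (‖w‖ : ℂ) := by
        rw [eq_div_iff (by exact_mod_cast hwn0), mul_comm]
        exact hw1
      have c2 : Complex.exp (omg th * Complex.I) = th / (‖th‖ : ℂ) := by
        rw [eq_div_iff (by exact_mod_cast hth.ne'), mul_comm]
        exact ht1
      have c3 : Complex.exp ((omg th * ph T x0 th k : ℝ) * Complex.I) =
          xin T x0 th (1525 + k) / (‖xin T x0 th (1525 + k)‖ : ℂ) := by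
        rw [eq_div_iff (by exact_mod_cast a1), mul_comm]
        exact ihk.symm
      have e3 : (((omg th * ph T x0 th (k + 1) : ℝ) : ℂ) * Complex.I) =
          ((omg th * ph T x0 th k : ℝ) : ℂ) * Complex.I + (-(omg th * Complex.I)
            + w.arg * Complex.I) := by
        rw [e2]
        push_cast
        ring
      have hxc : (x0 : ℂ) ≠ 0 := by exact_mod_cast hx0.ne'
      have a1c : (‖xin T x0 th (1525 + k)‖ : ℂ) ≠ 0 := by exact_mod_cast a1
      have a2c' : (‖xin T x0 th (1525 + k + 1)‖ : ℂ) ≠ 0 := by exact_mod_cast a2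
      have htc : (‖th‖ : ℂ) ≠ 0 := by exact_mod_cast hth.ne'
      show xin T x0 th (1525 + k + 1) = (‖xin T x0 th (1525 + k + 1)‖ : ℂ) * _
      rw [e3, Complex.exp_add, Complex.exp_add, Complex.exp_neg, c1, c2, c3, hwn, hw]
      push_cast
      field_simp
  intro h
  have p1 := hmain k h
  have hper : omg th * per th = 2 * Real.pi := by
    unfold per
    field_simp
  have p2 : xin T x0 th (1525 + k) =
      (Am T x0 th k : ℂ) * Complex.exp ((omg th * pp T x0 th k : ℝ) * Complex.I) := by
    rw [p1]
    congr 1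
    rw [Complex.exp_eq_exp_iff_exists_int]
    refine ⟨- cyc T x0 th k, ?_⟩
    have e : omg th * pp T x0 th k = omg th * ph T x0 th k + cyc T x0 th k * (2 * Real.pi) := by
      unfold pp
      rw [← hper]
      ring
    rw [e]
    push_cast
    ring
  refine ⟨p1, p2, ?_⟩
  have nk : xin T x0 th (1525 + k) ≠ 0 := h k (le_refl _)
  have hC : (Cn T x0 (1525 + k) : ℂ) ≠ 0 := by
    intro hc
    apply nk
    unfold xin
    rw [hc, div_zero]
  have hZ : Zn T th (1525 + k) = -((Cn T x0 (1525 + k) : ℂ) * xin T x0 th (1525 + k)) := by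
    unfold xin
    field_simp
  rw [hZ, p2, Complex.neg_re, Complex.re_ofReal_mul, Complex.re_ofReal_mul,
    Complex.exp_ofReal_mul_I_re]

end SA.H50
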