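import Pool.Agent.Helper88_SA.StmtP

/-! SA part C: module STEPC. -/

namespace SA.H50

open Filter Topology SA

theorem stepc (a : AlgA) (ms : MstepStmt) : StepCStmt := by
  intro T x0 z th cx n hv hC hk hD
  obtain ⟨m1, m2, m3⟩ := ms T x0 z th cx n hv
  obtain ⟨p1, p2, p3, _, _⟩ := a.pds T n hv
  have hx0 : (1 : ℝ) < x0 := by have := cx.nr.x0_lo; linarith
  have hz : (0 : ℝ) < z := by have := cx.nr.z_lo; linarith
  have hth : (0 : ℝ) < ‖th‖ := cx.nr.th_pos
  have hth0 : th ≠ 0 := norm_pos_iff.mp hth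
  have hp3 := p3 (by omega)
  have pz : ∀ d : ℕ, 10 < d → d ≤ 55 → pd T n d = 0 := fun d h1 h2 => p2 d (by omega) h2
  have pn : ∀ d ∈ Finset.Icc (1 : ℕ) 55, 0 ≤ pd T n d := fun d hd => by
    rw [Finset.mem_Icc] at hd; exact (p1 d hd.1 hd.2).1
  have hDn : 0 ≤ Dn T n := by
    rw [← hp3]
    exact Finset.sum_nonneg fun d hd => mul_nonneg (Nat.cast_nonneg _) (pn d hd)
  -- bounds for the sums
  have s1 : ∑ d ∈ Finset.Icc (1 : ℕ) 55, pd T n d * (x0 * cdc T x0 d) ≤ 0 := by
    refine Finset.sum_nonpos fun d hd => ?_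
    have hd' := Finset.mem_Icc.mp hd
    by_cases h : d ≤ 10
    · exact mul_nonpos_of_nonneg_of_nonpos (pn d hd)
        (mul_nonpos_of_nonneg_of_nonpos (by linarith) (cx.nk.cd d hd'.1 h).1)
    · rw [pz d (by omega) hd'.2, zero_mul]
  have s1' : - (8.73 / 10 ^ 6) * Dn T n ≤
      ∑ d ∈ Finset.Icc (1 : ℕ) 55, pd T n d * (x0 * cdc T x0 d) := by
    rw [← hp3, Finset.mul_sum]
    refine Finset.sum_le_sum fun d hd => ?_
    have hd' := Finset.mem_Icc.mp hd
    by_cases h : d ≤ 10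
    · have h1 := (cx.nk.cd d hd'.1 h).2
      have h2 := mul_le_mul_of_nonneg_left h1 (pn d hd)
      calc - (8.73 / 10 ^ 6) * ((d : ℝ) * pd T n d) = pd T n d * (- (8.73 / 10 ^ 6) * d) := by ring
        _ ≤ _ := h2
    · rw [pz d (by omega) hd'.2]; simp
  have s2 : ∑ d ∈ Finset.Icc (1 : ℕ) 55, pd T n d * (z * zec T z d) ≤ 0 := by
    refine Finset.sum_nonpos fun d hd => ?_
    have hd' := Finset.mem_Icc.mp hd
    by_cases h : d ≤ 10
    · exact mul_nonpos_of_nonneg_of_nonpos (pn d hd)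
        (mul_nonpos_of_nonneg_of_nonpos hz.le (cx.nk.ze d hd'.1 h).1.le)
    · rw [pz d (by omega) hd'.2, zero_mul]
  have s2' : - (7.2 / 10 ^ 6) * Dn T n ≤
      ∑ d ∈ Finset.Icc (1 : ℕ) 55, pd T n d * (z * zec T z d) := by
    rw [← hp3, Finset.mul_sum]
    refine Finset.sum_le_sum fun d hd => ?_
    have hd' := Finset.mem_Icc.mp hd
    by_cases h : d ≤ 10
    · have h1 := (cx.nk.ze d hd'.1 h).2
      have h2 := mul_le_mul_of_nonneg_left h1 (pn d hd)
      calc - (7.2 / 10 ^ 6) * ((d : ℝ) * pd T n d) = pd T n d * (- (7.2 / 10 ^ 6) * d) := by ring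
        _ ≤ _ := h2
    · rw [pz d (by omega) hd'.2]; simp
  have c1 : Cn T x0 n - 9 / 10 ^ 6 * Dn T n ≤ x0 * Cn T x0 (n + 1) := by
    rw [m1]; linarith
  have c2 : x0 * Cn T x0 (n + 1) ≤ Cn T x0 n := by rw [m1]; linarith
  have c3 : 0 < Cn T x0 (n + 1) := by
    have h1 : 0 < x0 * Cn T x0 (n + 1) := by linarith
    exact (pos_iff_pos_of_mul_pos h1).mp (by linarith)
  refine ⟨c1, c2, c3, ?_, ?_, ?_⟩
  · intro h
    unfold ztn at h ⊢
    have h1 : zn T z n ≤ 0 := by
      by_contra hc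
      push Not at hc
      have := div_pos hc hC
      linarith
    have h2 : z * zn T z (n + 1) ≤ 0 := by rw [m2]; linarith
    have h3 : zn T z (n + 1) ≤ 0 := by
      by_contra hc
      push Not at hc
      have := mul_pos hz hc
      linarith
    exact div_nonpos_of_nonpos_of_nonneg h3 c3.le
  · intro h
    unfold ztn at h ⊢
    rw [lt_div_iff₀ hC] at h
    rw [lt_div_iff₀ c3]
    have h2 : 2.356 / 10 ^ 4 * Cn T x0 n < z * zn T z (n + 1) := by rw [m2]; linarith
    have hr := cx.nr.ratio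
    rw [le_div_iff₀ hz] at hr
    -- 2.5e-4 C' z <= 2.5e-4 C' x0 / 1.067 <= 2.5e-4 C/1.067 < 2.356e-4 C
    have h3 : z * Cn T x0 (n + 1) * 1.0671475 ≤ Cn T x0 n := by
      calc z * Cn T x0 (n + 1) * 1.0671475 = (1.0671475 * z) * Cn T x0 (n + 1) := by ring
        _ ≤ x0 * Cn T x0 (n + 1) := mul_le_mul_of_nonneg_right hr c3.le
        _ ≤ _ := c2
    have h4 : z * (2.5 / 10 ^ 4 * Cn T x0 (n + 1)) < z * zn T z (n + 1) := by nlinarith
    exact lt_of_mul_lt_mul_left h4 hz.le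
  · intro h
    have pall : ∀ d ∈ Finset.Icc (1 : ℕ) 55, pd T n d = 0 := by
      rw [h] at hp3
      have := (Finset.sum_eq_zero_iff_of_nonneg
        fun d hd => mul_nonneg (Nat.cast_nonneg _) (pn d hd)).mp hp3
      intro d hd
      have h1 := this d hd
      rcases mul_eq_zero.mp h1 with h2 | h2
      · rw [Finset.mem_Icc] at hd
        have : d = 0 := by exact_mod_cast h2
        omega
      · exact h2
    have e1 : x0 * Cn T x0 (n + 1) = Cn T x0 n := by
      rw [m1, Finset.sum_eq_zero fun d hd => by rw [pall d hd, zero_mul], add_zero]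
    have e2 : z * zn T z (n + 1) = zn T z n := by
      rw [m2, Finset.sum_eq_zero fun d hd => by rw [pall d hd, zero_mul], add_zero]
    have e3 : th * Zn T th (n + 1) = Zn T th n := by
      rw [m3, Finset.sum_eq_zero fun d hd => by rw [pall d hd]; simp, add_zero]
    refine ⟨e1, ?_, ?_⟩
    · unfold ztn
      rw [← e1, ← e2]
      have : x0 ≠ 0 := by linarith
      have := c3.ne'
      field_simp
    · unfold xin
      rw [← e1, ← e3]
      have hx : (0 : ℝ) < x0 := by linarith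
      rw [norm_div, norm_div, norm_neg, norm_neg, norm_mul, Complex.norm_real, Complex.norm_real,
        norm_mul, Real.norm_of_nonneg hx.le]
      have h5 : ‖Cn T x0 (n + 1)‖ ≠ 0 := by rw [norm_ne_zero_iff]; exact c3.ne'
      field_simp

end SA.H50
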